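import Pool.Agent.H8.TsymB

namespace Pool.Agent.Results.MP_52b7e0_co.Tetra
open Set Matrix Pool.Agent.H8.Tsym

/-- The vertices of a regular tetrahedron centred at the origin. -/
def tet : Set (Fin 3 → ℝ) := {![1, 1, 1], ![1, -1, -1], ![-1, 1, -1], ![-1, -1, 1]}

/-- The full symmetry group of the tetrahedron in `O(3)`. -/
def That : Set (Matrix (Fin 3) (Fin 3) ℝ) :=
  {A | A ∈ orthogonalGroup (Fin 3) ℝ ∧ A.mulVec '' tet = tet}

/-- The rotation group of the tetrahedron. -/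
def Trot : Set (Matrix (Fin 3) (Fin 3) ℝ) := {A ∈ That | A.det = 1}

/-- The pairs (number of vertices, number of facets) of `G`-symmetric 3-polytopes. -/
def F (G : Set (Matrix (Fin 3) (Fin 3) ℝ)) : Set (ℕ × ℕ) :=
  {f | ∃ P : Set (Fin 3 → ℝ), (∃ X : Finset (Fin 3 → ℝ), P = convexHull ℝ X) ∧
    (interior P).Nonempty ∧ (∀ A ∈ G, A.mulVec '' P = P) ∧
    f = ((P.extremePoints ℝ).ncard, (facets P).ncard)}

def tz : Finset (Fin 3 → ℤ) := {![1, 1, 1], ![1, -1, -1], ![-1, 1, -1], ![-1, -1, 1]}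

lemma tz_mem {x : V} (h : x ∈ tet) : ∃ a ∈ tz, x = c a := by
  rcases h with rfl | rfl | rfl | rfl
  exacts [⟨![1, 1, 1], by decide, by ext i; fin_cases i <;> simp [c]⟩,
    ⟨![1, -1, -1], by decide, by ext i; fin_cases i <;> simp [c]⟩,
    ⟨![-1, 1, -1], by decide, by ext i; fin_cases i <;> simp [c]⟩,
    ⟨![-1, -1, 1], by decide, by ext i; fin_cases i <;> simp [c]⟩]

lemma ico_sym (A) (hA : A ∈ Trot) : A.mulVec '' Ico = Ico := by
  obtain ⟨⟨-, h⟩, hd⟩ := hA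
  have m : ∀ x ∈ tet, ∃ a ∈ tz, A *ᵥ x = c a := fun x hx => tz_mem (h ▸ mem_image_of_mem _ hx)
  obtain ⟨a, ha, ea⟩ := m ![1, 1, 1] (by simp [tet])
  obtain ⟨b, hb, eb⟩ := m ![1, -1, -1] (by simp [tet])
  obtain ⟨d, hd', ed⟩ := m ![-1, 1, -1] (by simp [tet])
  obtain ⟨e, he, ee⟩ := m ![-1, -1, 1] (by simp [tet])
  let B : Matrix (Fin 3) (Fin 3) ℤ := of fun i j => a i + ![b, d, e] j i
  have hB : B.map (Int.castRingHom ℝ) = (2 : ℝ) • A := by
    ext i j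
    have h1 := congrFun ea i; have h2 := congrFun eb i
    have h3 := congrFun ed i; have h4 := congrFun ee i
    simp [mulVec, dotProduct, Fin.sum_univ_three, c] at h1 h2 h3 h4
    fin_cases j <;> simp [B] <;> linarith
  have h8 : B.det = 8 := by
    have := (Int.castRingHom ℝ).map_det B
    rw [RingHom.mapMatrix_apply, hB, det_smul, hd] at this
    norm_num at this
    exact_mod_cast this
  rw [det_fin_three] at h8
  have h0 : a + b + d + e = 0 := by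
    ext i
    have h1 := congrFun ea i; have h2 := congrFun eb i
    have h3 := congrFun ed i; have h4 := congrFun ee i
    simp [mulVec, dotProduct, Fin.sum_univ_three, c] at h1 h2 h3 h4
    have : (a i + b i + d i + e i : ℝ) = 0 := by linarith
    exact_mod_cast this
  obtain ⟨k1, k2⟩ := (by decide +kernel : ∀ a ∈ tz, ∀ b ∈ tz, ∀ d ∈ tz, ∀ e ∈ tz, a + b + d + e = 0 →
    let B : Matrix (Fin 3) (Fin 3) ℤ := of fun i j => a i + ![b, d, e] j i
    B 0 0 * B 1 1 * B 2 2 - B 0 0 * B 1 2 * B 2 1 - B 0 1 * B 1 0 * B 2 2 + B 0 1 * B 1 2 * B 2 0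
      + B 0 2 * B 1 0 * B 2 1 - B 0 2 * B 1 1 * B 2 0 = 8 →
    (∀ s ∈ S, ∃ t ∈ S, B *ᵥ s = (2 : ℤ) • t) ∧ ∀ t ∈ S, ∃ s ∈ S, B *ᵥ s = (2 : ℤ) • t)
    a ha b hb d hd' e he h0 h8
  have k : ∀ s t, B *ᵥ s = (2 : ℤ) • t → A *ᵥ c s = c t := fun s t h => by
    ext i
    have h1 := congrFun h i
    have h2 := fun j => congrFun (congrFun hB i) j
    simp only [map_apply, eq_intCast, Matrix.smul_apply, smul_eq_mul] at h2
    simp only [mulVec, dotProduct, Fin.sum_univ_three, Pi.smul_apply, smul_eq_mul, c] at h1 ⊢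
    have h1' : (B i 0 * s 0 + B i 1 * s 1 + B i 2 * s 2 : ℝ) = 2 * t i := by exact_mod_cast h1
    rw [h2, h2, h2] at h1'
    linarith
  refine (A.mulVecLin.image_convexHull _).trans (congrArg _ (Subset.antisymm ?_ ?_))
  · rintro _ ⟨_, ⟨s, hs, rfl⟩, rfl⟩
    obtain ⟨t, ht, e⟩ := k1 s hs
    exact ⟨t, ht, (k s t e).symm⟩
  · rintro _ ⟨t, ht, rfl⟩
    obtain ⟨s, hs, e⟩ := k2 t ht
    exact ⟨_, ⟨s, hs, rfl⟩, k s t e⟩

theorem result : (12, 20) ∈ F Trot ∧ (12, 20) ∉ F That := by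
  classical
  refine ⟨⟨Ico, ⟨S.image c, by rw [Finset.coe_image]; rfl⟩, ico_int, ico_sym, by rw [ico_ext, ico_facets]⟩, ?_⟩
  rintro ⟨_, ⟨X, rfl⟩, -, h, e⟩
  obtain ⟨e1, e2⟩ := Prod.mk.inj e
  let M : Fin 3 → Matrix (Fin 3) (Fin 3) ℝ := ![!![0, 1, 0; 1, 0, 0; 0, 0, 1],
    !![1, 0, 0; 0, 0, 1; 0, 1, 0], !![-1, 0, 0; 0, -1, 0; 0, 0, 1]]
  have hM : ∀ k x, M k *ᵥ x = g k x := fun k x => by
    fin_cases k <;> ext i <;> fin_cases i <;> simp [M, g, mulVec, dotProduct, Fin.sum_univ_three]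
  have hT : ∀ k, M k ∈ That := fun k => by
    refine ⟨?_, ?_⟩
    · rw [mem_orthogonalGroup_iff]
      fin_cases k <;> ext i j <;> fin_cases i <;> fin_cases j <;>
        simp [M, mul_apply, Fin.sum_univ_three]
    · have : ∀ x ∈ tet, g k x ∈ tet := by
        rintro x (rfl | rfl | rfl | rfl) <;> fin_cases k <;> simp [g, tet]
      refine Subset.antisymm ?_ fun x hx => ⟨_, this x hx, by rw [hM, gg]⟩
      rintro _ ⟨x, hx, rfl⟩
      exact hM k x ▸ this x hx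
  have := few (fun k x hx => hM k x ▸ h _ (hT k) ▸ mem_image_of_mem _ hx)
    (X.finite_toSet.isCompact_convexHull ℝ) (convex_convexHull ℝ _) e1.symm
  omega

end Pool.Agent.Results.MP_52b7e0_co.Tetra
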